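import Mathlib

/-!
# Circumradius of Minkowski sums with respect to `ℓ_p` balls

For every real `p > 2` the inequality
`R(K₁ + K₂, B_p) ≥ ‖(R(K₁, B_p), R(K₂, B_p))‖_p` fails for suitable simplices `K₁, K₂` in some `ℝⁿ`.

The example: `n = m²`, the coordinates are indexed by the cells of an `m × m` grid, the vertices of
`K₁` have the value `-M` in the cells of one row and `1` elsewhere, the vertices of `K₂` have the
value `-M` in the cells of one column and `1` elsewhere, where `M ^ (p - 1) = m - 1`.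
-/

set_option autoImplicit false

open scoped Pointwise

namespace Pool.Agent.Results.MP_a85856_gt.SpikeGrids

/-- The `ℓ_p` norm `(|x₁|^p + ⋯ + |x_m|^p)^(1/p)`. -/
noncomputable def lpNorm (p : ℝ) {m : ℕ} (x : Fin m → ℝ) : ℝ := (∑ i, |x i| ^ p) ^ (1 / p)

/-- The unit ball of the `ℓ_p` norm in `ℝⁿ`. -/
def lpBall (p : ℝ) (n : ℕ) : Set (Fin n → ℝ) := {x | lpNorm p x ≤ 1}

/-- A convex body (in the sense of the problem): a nonempty compact convex set. -/
def IsConvexBody {n : ℕ} (K : Set (Fin n → ℝ)) : Prop := K.Nonempty ∧ IsCompact K ∧ Convex ℝ K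

/-- The circumradius `R(K, C)`: the infimum of the `l ≥ 0` such that `K ⊆ t + l C` for some `t`. -/
noncomputable def circumradius {n : ℕ} (K C : Set (Fin n → ℝ)) : ℝ :=
  sInf {l : ℝ | 0 ≤ l ∧ ∃ t : Fin n → ℝ, K ⊆ t +ᵥ l • C}

/-! ### Elementary inequalities -/

theorem tangent {p : ℝ} (hp : 1 ≤ p) {a : ℝ} (ha : 0 < a) (t : ℝ) :
    a ^ p + p * a ^ (p - 1) * t ≤ |a + t| ^ p := by
  have hap : a ^ p = a ^ (p - 1) * a := by
    rw [← Real.rpow_add_one ha.ne']; congr 1; ring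
  have hpos : 0 < a ^ (p - 1) := Real.rpow_pos_of_pos ha _
  rcases le_or_gt 0 (a + t) with h | h
  · rw [abs_of_nonneg h]
    have h1 : -1 ≤ t / a := by rw [le_div_iff₀ ha]; linarith
    have h2 := one_add_mul_self_le_rpow_one_add h1 hp
    have h3 : (a + t) ^ p = a ^ p * (1 + t / a) ^ p := by
      rw [← Real.mul_rpow ha.le (by linarith)]
      congr 1; field_simp
    rw [h3]
    have h4 : a ^ p + p * a ^ (p - 1) * t = a ^ p * (1 + p * (t / a)) := by
      rw [hap]; field_simp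
    rw [h4]
    exact mul_le_mul_of_nonneg_left h2 (Real.rpow_nonneg ha.le _)
  · have h1 : 0 ≤ |a + t| ^ p := Real.rpow_nonneg (abs_nonneg _) _
    have h2 : a ^ p + p * a ^ (p - 1) * t ≤ a ^ (p - 1) * a * (1 - p) := by
      rw [hap]
      have : p * a ^ (p - 1) * t ≤ p * a ^ (p - 1) * (-a) :=
        mul_le_mul_of_nonneg_left (by linarith) (by positivity)
      nlinarith
    have h3 : a ^ (p - 1) * a * (1 - p) ≤ 0 :=
      mul_nonpos_of_nonneg_of_nonpos (by positivity) (by linarith)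
    linarith

theorem sumS_nonneg {p : ℝ} {n : ℕ} (x : Fin n → ℝ) : 0 ≤ ∑ i, |x i| ^ p :=
  Finset.sum_nonneg fun _ _ => Real.rpow_nonneg (abs_nonneg _) _

theorem mem_ball_iff {p : ℝ} (hp : 0 < p) {n : ℕ} (x : Fin n → ℝ) :
    x ∈ lpBall p n ↔ ∑ i, |x i| ^ p ≤ 1 := by
  unfold lpBall lpNorm
  rw [Set.mem_ofPred_eq, one_div, Real.rpow_inv_le_iff_of_pos (sumS_nonneg x) zero_le_one hp,
    Real.one_rpow]

/-- Points of `t + l B_p`. -/
theorem mem_translate {p : ℝ} (hp : 0 < p) {n : ℕ} (x t : Fin n → ℝ) {l : ℝ} (hl : 0 ≤ l)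
    (h : x ∈ t +ᵥ l • lpBall p n) : ∑ i, |x i - t i| ^ p ≤ l ^ p := by
  obtain ⟨y, ⟨b, hb, rfl⟩, rfl⟩ := h
  rw [mem_ball_iff hp] at hb
  have h1 : ∀ i, |(t +ᵥ (fun x : Fin n → ℝ => l • x) b) i - t i| ^ p = l ^ p * |b i| ^ p := by
    intro i
    have : (t +ᵥ (fun x : Fin n → ℝ => l • x) b) i - t i = l * b i := by
      simp [vadd_eq_add]
    rw [this, abs_mul, abs_of_nonneg hl, Real.mul_rpow hl (abs_nonneg _)]
  show ∑ i, |(t +ᵥ (fun x : Fin n → ℝ => l • x) b) i - t i| ^ p ≤ l ^ p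
  simp_rw [h1]
  rw [← Finset.mul_sum]
  have : 0 ≤ l ^ p := Real.rpow_nonneg hl _
  nlinarith

theorem mem_translate_of {p : ℝ} (hp : 0 < p) {n : ℕ} (x t : Fin n → ℝ) {l : ℝ} (hl : 0 < l)
    (h : ∑ i, |x i - t i| ^ p ≤ l ^ p) : x ∈ t +ᵥ l • lpBall p n := by
  refine ⟨x - t, ⟨l⁻¹ • (x - t), ?_, ?_⟩, ?_⟩
  · rw [mem_ball_iff hp]
    have h1 : ∀ i, |(l⁻¹ • (x - t)) i| ^ p = (l ^ p)⁻¹ * |x i - t i| ^ p := by
      intro i
      simp only [Pi.smul_apply, Pi.sub_apply, smul_eq_mul]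
      rw [abs_mul, abs_of_pos (inv_pos.2 hl), Real.mul_rpow (inv_pos.2 hl).le (abs_nonneg _),
        Real.inv_rpow hl.le]
    simp_rw [h1]
    rw [← Finset.mul_sum]
    have hlp : 0 < l ^ p := Real.rpow_pos_of_pos hl _
    rw [inv_mul_le_iff₀ hlp, mul_one]
    exact h
  · simp only [smul_smul]
    rw [mul_inv_cancel₀ hl.ne', one_smul]
  · simp [vadd_eq_add]

theorem conv_sum {p : ℝ} (hp : 1 ≤ p) {n : ℕ} (r : ℝ) (t : Fin n → ℝ) :
    Convex ℝ {x : Fin n → ℝ | ∑ i, |x i - t i| ^ p ≤ r} := by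
  intro x hx y hy a b ha hb hab
  simp only [Set.mem_ofPred_eq] at hx hy ⊢
  have h1 : ∀ i, |(a • x + b • y) i - t i| ^ p ≤ a * |x i - t i| ^ p + b * |y i - t i| ^ p := by
    intro i
    have e1 : (a • x + b • y) i - t i = a * (x i - t i) + b * (y i - t i) := by
      simp only [Pi.add_apply, Pi.smul_apply, smul_eq_mul]
      linear_combination (t i) * hab
    have e2 : |(a • x + b • y) i - t i| ≤ a * |x i - t i| + b * |y i - t i| := by
      rw [e1]
      refine (abs_add_le _ _).trans ?_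
      rw [abs_mul, abs_mul, abs_of_nonneg ha, abs_of_nonneg hb]
    refine (Real.rpow_le_rpow (abs_nonneg _) e2 (by linarith)).trans ?_
    have := (convexOn_rpow hp).2 (abs_nonneg (x i - t i)) (abs_nonneg (y i - t i)) ha hb hab
    simpa [smul_eq_mul] using this
  calc ∑ i, |(a • x + b • y) i - t i| ^ p
      ≤ ∑ i, (a * |x i - t i| ^ p + b * |y i - t i| ^ p) := Finset.sum_le_sum fun i _ => h1 i
    _ = a * ∑ i, |x i - t i| ^ p + b * ∑ i, |y i - t i| ^ p := by
        rw [Finset.sum_add_distrib, Finset.mul_sum, Finset.mul_sum]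
    _ ≤ a * r + b * r := add_le_add (mul_le_mul_of_nonneg_left hx ha)
        (mul_le_mul_of_nonneg_left hy hb)
    _ = r := by rw [← add_mul, hab, one_mul]

/-- A set on which the `p`-th power sum about `t` is at most `r`. -/
theorem circumradius_le {p : ℝ} (hp : 1 ≤ p) {n : ℕ} {K : Set (Fin n → ℝ)} {r : ℝ} (hr : 0 < r)
    (t : Fin n → ℝ) (h : ∀ x ∈ K, ∑ i, |x i - t i| ^ p ≤ r) :
    circumradius K (lpBall p n) ≤ r ^ (1 / p) := by
  have hp0 : 0 < p := by linarith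
  have hl : 0 < r ^ (1 / p) := Real.rpow_pos_of_pos hr _
  refine csInf_le ⟨0, fun l hl => hl.1⟩ ⟨hl.le, t, fun x hx => ?_⟩
  apply mem_translate_of hp0 x t hl
  rw [← Real.rpow_mul hr.le, one_div, inv_mul_cancel₀ hp0.ne', Real.rpow_one]
  exact h x hx

theorem sum_two {m : ℕ} (j : Fin m) (F : ℝ → ℝ) (u v : ℝ) :
    ∑ b : Fin m, F (if b = j then u else v) = F u + ((m : ℝ) - 1) * F v := by
  have h : ∀ b : Fin m, F (if b = j then u else v) = F v + (if b = j then F u - F v else 0) := by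
    intro b; split_ifs <;> ring
  simp_rw [h]
  rw [Finset.sum_add_distrib, Finset.sum_ite_eq' Finset.univ j]
  simp
  ring

theorem sum_two' {m : ℕ} (j : Fin m) (F : ℝ → ℝ) (u v : ℝ) :
    ∑ b : Fin m, F (if j = b then u else v) = F u + ((m : ℝ) - 1) * F v := by
  rw [← sum_two j F u v]
  refine Finset.sum_congr rfl fun b _ => ?_
  by_cases h : b = j
  · simp [h]
  · simp [h, Ne.symm h]

/-- The vertices of the simplices: `-M` in the coordinates `k` with `c k = i`, `1` in the others. -/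
def vert {m : ℕ} (M : ℝ) (c : Fin (m * m) → Fin m) (i : Fin m) : Fin (m * m) → ℝ :=
  fun k => if c k = i then -M else 1

/-- Lower bound for the circumradius. -/
theorem le_circumradius {p : ℝ} (hp : 1 ≤ p) {m : ℕ} (hm : 0 < m) {M : ℝ} (hM : 0 < M)
    (hMm : M ^ (p - 1) = (m : ℝ) - 1) (c : Fin (m * m) → Fin m) :
    ((m : ℝ) * (M ^ p + ((m : ℝ) - 1))) ^ (1 / p) ≤
      circumradius (convexHull ℝ (Set.range (vert M c))) (lpBall p (m * m)) := by
  have hp0 : 0 < p := by linarith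
  have hm0 : (0 : ℝ) < m := by exact_mod_cast hm
  have hMp : 0 < M ^ p := Real.rpow_pos_of_pos hM _
  have hm1 : 0 ≤ (m : ℝ) - 1 := by rw [← hMm]; exact (Real.rpow_pos_of_pos hM _).le
  apply le_csInf
  · -- the set is nonempty
    set r : ℝ := 1 + ∑ i : Fin m, ∑ k, |vert M c i k - 0| ^ p with hr
    have hr0 : 0 < r := by
      have : 0 ≤ ∑ i : Fin m, ∑ k, |vert M c i k - 0| ^ p :=
        Finset.sum_nonneg fun i _ => Finset.sum_nonneg fun k _ => Real.rpow_nonneg (abs_nonneg _) _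
      linarith
    have hl : 0 < r ^ (1 / p) := Real.rpow_pos_of_pos hr0 _
    refine ⟨r ^ (1 / p), hl.le, 0, fun x hx => ?_⟩
    apply mem_translate_of hp0 x 0 hl
    rw [← Real.rpow_mul hr0.le, one_div, inv_mul_cancel₀ hp0.ne', Real.rpow_one]
    refine convexHull_min ?_ (conv_sum hp r 0) hx
    rintro _ ⟨i, rfl⟩
    simp only [Set.mem_ofPred_eq, Pi.zero_apply]
    have h1 : ∑ k, |vert M c i k - 0| ^ p ≤ ∑ i : Fin m, ∑ k, |vert M c i k - 0| ^ p :=
      Finset.single_le_sum (f := fun i : Fin m => ∑ k, |vert M c i k - 0| ^ p)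
        (fun i _ => Finset.sum_nonneg fun k _ => Real.rpow_nonneg (abs_nonneg _) _)
        (Finset.mem_univ i)
    linarith
  · rintro l ⟨hl, t, ht⟩
    have h1 : ∀ i : Fin m, ∑ k, |vert M c i k - t k| ^ p ≤ l ^ p := fun i =>
      mem_translate hp0 _ t hl (ht (subset_convexHull ℝ _ ⟨i, rfl⟩))
    have h2 : ∑ i : Fin m, ∑ k, |vert M c i k - t k| ^ p ≤ (m : ℝ) * l ^ p := by
      calc ∑ i : Fin m, ∑ k, |vert M c i k - t k| ^ p ≤ ∑ _i : Fin m, l ^ p :=
            Finset.sum_le_sum fun i _ => h1 i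
        _ = (m : ℝ) * l ^ p := by simp
    rw [Finset.sum_comm] at h2
    have h3 : ∀ k, M ^ p + ((m : ℝ) - 1) ≤ ∑ i : Fin m, |vert M c i k - t k| ^ p := by
      intro k
      have e1 : ∑ i : Fin m, |vert M c i k - t k| ^ p =
          |-M - t k| ^ p + ((m : ℝ) - 1) * |1 - t k| ^ p := by
        unfold vert
        exact sum_two' (c k) (fun z => |z - t k| ^ p) (-M) 1
      rw [e1]
      have e2 := tangent hp hM (t k)
      have e3 := tangent hp one_pos (-t k)
      have e4 : |-M - t k| = |M + t k| := by rw [← abs_neg]; congr 1; ring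
      have e5 : |1 - t k| = |1 + -t k| := by congr 1
      rw [e4, e5]
      rw [Real.one_rpow, Real.one_rpow] at e3
      rw [hMm] at e2
      nlinarith [mul_le_mul_of_nonneg_left e3 hm1]
    have h4 : ((m : ℝ) * m) * (M ^ p + ((m : ℝ) - 1)) ≤
        ∑ k : Fin (m * m), ∑ i : Fin m, |vert M c i k - t k| ^ p := by
      calc ((m : ℝ) * m) * (M ^ p + ((m : ℝ) - 1)) =
            ∑ _k : Fin (m * m), (M ^ p + ((m : ℝ) - 1)) := by
              rw [Finset.sum_const, Finset.card_univ, Fintype.card_fin, nsmul_eq_mul]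
              push_cast
              ring
        _ ≤ _ := Finset.sum_le_sum fun k _ => h3 k
    have h5 : (m : ℝ) * (M ^ p + ((m : ℝ) - 1)) ≤ l ^ p := by
      have : (m : ℝ) * ((m : ℝ) * (M ^ p + ((m : ℝ) - 1))) ≤ (m : ℝ) * l ^ p := by
        have := h4.trans h2
        linarith
      exact le_of_mul_le_mul_left this hm0
    rw [one_div, Real.rpow_inv_le_iff_of_pos (by positivity) hl hp0]
    exact h5

/-- Upper bound for the circumradius of the sum. -/
theorem circumradius_sum_le {p : ℝ} (hp : 1 ≤ p) {m : ℕ} {M s r : ℝ} (hr : 0 < r)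
    (h : ((m : ℝ) - 1) ^ 2 * |2 - s| ^ p + 2 * ((m : ℝ) - 1) * |1 - M - s| ^ p +
      |-2 * M - s| ^ p ≤ r) :
    circumradius (convexHull ℝ (Set.range (vert M fun k : Fin (m * m) => (finProdFinEquiv.symm k).1))
      + convexHull ℝ (Set.range (vert M fun k : Fin (m * m) => (finProdFinEquiv.symm k).2)))
      (lpBall p (m * m)) ≤ r ^ (1 / p) := by
  apply circumradius_le hp hr (fun _ => s)
  intro x hx
  rw [← convexHull_add] at hx
  refine convexHull_min ?_ (conv_sum hp r fun _ => s) hx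
  rintro _ ⟨_, ⟨i, rfl⟩, _, ⟨j, rfl⟩, rfl⟩
  simp only [Set.mem_ofPred_eq]
  refine le_trans (le_of_eq ?_) h
  have e1 : ∑ k : Fin (m * m), |(vert M (fun k : Fin (m * m) => (finProdFinEquiv.symm k).1) i +
      vert M (fun k : Fin (m * m) => (finProdFinEquiv.symm k).2) j) k - s| ^ p =
      ∑ q : Fin m × Fin m, |(if q.1 = i then -M else 1) + (if q.2 = j then -M else 1) - s| ^ p := by
    rw [← Equiv.sum_comp (finProdFinEquiv (m := m) (n := m)).symm]
    rfl
  rw [e1, Fintype.sum_prod_type]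
  have e2 : ∀ a : Fin m, ∑ b : Fin m,
      |(if a = i then -M else 1) + (if b = j then -M else 1) - s| ^ p =
      (fun z : ℝ => |z + -M - s| ^ p + ((m : ℝ) - 1) * |z + 1 - s| ^ p)
        (if a = i then -M else 1) := by
    intro a
    exact sum_two j (fun w => |(if a = i then -M else 1) + w - s| ^ p) (-M) 1
  simp only [e2]
  rw [sum_two i (fun z : ℝ => |z + -M - s| ^ p + ((m : ℝ) - 1) * |z + 1 - s| ^ p) (-M) 1]
  have a1 : |-M + -M - s| = |-2 * M - s| := by congr 1; ring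
  have a2 : |-M + 1 - s| = |1 - M - s| := by congr 1; ring
  have a3 : |1 + -M - s| = |1 - M - s| := by congr 1
  have a4 : |(1 : ℝ) + 1 - s| = |2 - s| := by congr 1; ring
  rw [a1, a2, a3, a4]
  ring

/-- The asymptotic comparison. -/
theorem asym {p : ℝ} (hp : 2 < p) : ∃ (m : ℕ) (M s : ℝ), 2 ≤ m ∧ 0 < M ∧
    M ^ (p - 1) = (m : ℝ) - 1 ∧
    ((m : ℝ) - 1) ^ 2 * |2 - s| ^ p + 2 * ((m : ℝ) - 1) * |1 - M - s| ^ p + |-2 * M - s| ^ p <
      2 * ((m : ℝ) * (M ^ p + ((m : ℝ) - 1))) := by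
  have hp1 : 0 < p - 1 := by linarith
  set δ : ℝ := 2 ^ (1 / (p - 1)) - 1 with hδ
  have hδ0 : 0 < δ := by
    have : (1 : ℝ) < 2 ^ (1 / (p - 1)) := Real.one_lt_rpow (by norm_num) (by positivity)
    linarith
  have hδ1 : δ < 1 := by
    have : (2 : ℝ) ^ (1 / (p - 1)) < 2 ^ (1 : ℝ) := by
      apply Real.rpow_lt_rpow_of_exponent_lt (by norm_num)
      rw [div_lt_one hp1]; linarith
    rw [Real.rpow_one] at this
    linarith
  have hδp : (1 + δ) ^ p = 2 * (1 + δ) := by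
    have e1 : (1 + δ) = 2 ^ (1 / (p - 1)) := by rw [hδ]; ring
    have e2 : (1 + δ) ^ (p - 1) = 2 := by
      rw [e1, ← Real.rpow_mul (by norm_num), one_div, inv_mul_cancel₀ hp1.ne', Real.rpow_one]
    have e3 : (1 + δ) ^ p = (1 + δ) ^ (p - 1) * (1 + δ) := by
      rw [← Real.rpow_add_one (by linarith)]; congr 1; ring
    rw [e3, e2]
  -- the limit of `M ((1 - δ / M) ^ p - 1)`
  have hlim1 : Filter.Tendsto (fun M : ℝ => M * ((1 - δ * M⁻¹) ^ p - 1)) Filter.atTop
      (nhds (-(p * δ))) := by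
    have hd : HasDerivAt (fun x : ℝ => (1 - δ * x) ^ p) (-(p * δ)) 0 := by
      have h1 : HasDerivAt (fun x : ℝ => 1 - δ * x) (-δ) 0 := by
        simpa using ((hasDerivAt_id (0 : ℝ)).const_mul δ).const_sub 1
      have h2 := h1.rpow_const (p := p) (Or.inl (by norm_num))
      convert h2 using 1
      simp [mul_comm]
    have h3 := hd.tendsto_slope_zero_right
    have h4 := h3.comp (tendsto_inv_atTop_nhdsGT_zero (𝕜 := ℝ))
    refine h4.congr' ?_
    filter_upwards [Filter.eventually_gt_atTop 0] with M hM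
    simp [smul_eq_mul]
  have hlim2 : Filter.Tendsto (fun M : ℝ => (3 : ℝ) ^ p * M ^ (-(p - 2))) Filter.atTop
      (nhds ((3 : ℝ) ^ p * 0)) :=
    (tendsto_rpow_neg_atTop (by linarith)).const_mul _
  have hlim : Filter.Tendsto (fun M : ℝ => (1 + δ) ^ p + 2 * (M * ((1 - δ * M⁻¹) ^ p - 1)) +
      (3 : ℝ) ^ p * M ^ (-(p - 2)) - 2) Filter.atTop
      (nhds ((1 + δ) ^ p + 2 * (-(p * δ)) + (3 : ℝ) ^ p * 0 - 2)) :=
    ((hlim1.const_mul 2).const_add _ |>.add hlim2).sub_const 2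
  have hneg : (1 + δ) ^ p + 2 * (-(p * δ)) + (3 : ℝ) ^ p * 0 - 2 < 0 := by
    rw [hδp]; nlinarith
  have hev := hlim.eventually (gt_mem_nhds hneg)
  have htop : Filter.Tendsto (fun m : ℕ => ((m : ℝ)) ^ (1 / (p - 1))) Filter.atTop
      Filter.atTop := (tendsto_rpow_atTop (by positivity)).comp tendsto_natCast_atTop_atTop
  obtain ⟨q, hq1, hq2, hq3⟩ := ((htop.eventually hev).and
    ((htop.eventually (Filter.eventually_ge_atTop 1)).and
      (Filter.eventually_ge_atTop 1))).exists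
  set M : ℝ := (q : ℝ) ^ (1 / (p - 1)) with hM
  have hq0 : (0 : ℝ) < q := by exact_mod_cast hq3
  have hM1 : 1 ≤ M := hq2
  have hM0 : 0 < M := by linarith
  have hMq : M ^ (p - 1) = q := by
    rw [hM, ← Real.rpow_mul hq0.le, one_div, inv_mul_cancel₀ hp1.ne', Real.rpow_one]
  refine ⟨q + 1, M, 1 - δ, by omega, hM0, by push_cast; rw [hMq]; ring, ?_⟩
  push_cast
  have c1 : (q : ℝ) + 1 - 1 = q := by ring
  rw [c1]
  have hMp : M ^ p = q * M := by
    rw [← hMq, ← Real.rpow_add_one hM0.ne']; congr 1; ring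
  -- the three terms
  have t1 : |2 - (1 - δ)| ^ p = (1 + δ) ^ p := by
    rw [abs_of_pos (by linarith)]; congr 1; ring
  have t2 : |1 - M - (1 - δ)| ^ p = q * (M * (1 - δ * M⁻¹) ^ p) := by
    have e1 : |1 - M - (1 - δ)| = M * (1 - δ * M⁻¹) := by
      have : 1 - M - (1 - δ) = -(M * (1 - δ * M⁻¹)) := by field_simp; ring
      rw [this, abs_neg, abs_of_nonneg]
      have : δ * M⁻¹ ≤ 1 := by
        rw [← div_eq_mul_inv, div_le_one hM0]; linarith
      exact mul_nonneg hM0.le (by linarith)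
    have e2 : 0 ≤ 1 - δ * M⁻¹ := by
      have : δ * M⁻¹ ≤ 1 := by
        rw [← div_eq_mul_inv, div_le_one hM0]; linarith
      linarith
    rw [e1, Real.mul_rpow hM0.le e2, hMp]; ring
  have t3 : |-2 * M - (1 - δ)| ^ p ≤ (q : ℝ) ^ 2 * ((3 : ℝ) ^ p * M ^ (-(p - 2))) := by
    have e1 : |-2 * M - (1 - δ)| ≤ 3 * M := by
      rw [abs_le]; constructor <;> nlinarith
    have e2 : |-2 * M - (1 - δ)| ^ p ≤ (3 * M) ^ p :=
      Real.rpow_le_rpow (abs_nonneg _) e1 (by linarith)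
    refine e2.trans (le_of_eq ?_)
    rw [Real.mul_rpow (by norm_num) hM0.le, ← hMq]
    have e3 : (M ^ (p - 1)) ^ 2 * ((3 : ℝ) ^ p * M ^ (-(p - 2))) =
        (3 : ℝ) ^ p * (M ^ (p - 1) * M ^ (p - 1) * M ^ (-(p - 2))) := by ring
    rw [e3, ← Real.rpow_add hM0, ← Real.rpow_add hM0]
    congr 2
    ring
  rw [t1, t2]
  have hq1' : (1 + δ) ^ p + 2 * (M * ((1 - δ * M⁻¹) ^ p - 1)) +
      (3 : ℝ) ^ p * M ^ (-(p - 2)) - 2 < 0 := hq1
  have hq2' := mul_lt_mul_of_pos_left hq1' (pow_pos hq0 2)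
  rw [hMp]
  nlinarith [mul_pos hq0 hM0]

/-- For every real `p > 2` there are `n` and convex bodies `K₁, K₂` in `ℝⁿ` such that
`R(K₁ + K₂, B_p) < ‖(R(K₁, B_p), R(K₂, B_p))‖_p`. -/
theorem result : ∀ p : ℝ, 2 < p → ∃ (n : ℕ) (K₁ K₂ : Set (Fin n → ℝ)),
    IsConvexBody K₁ ∧ IsConvexBody K₂ ∧
      circumradius (K₁ + K₂) (lpBall p n) <
        lpNorm p ![circumradius K₁ (lpBall p n), circumradius K₂ (lpBall p n)] := by
  intro p hp
  have hp1 : 1 ≤ p := by linarith
  have hp0 : 0 < p := by linarith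
  obtain ⟨m, M, s, hm, hM, hMm, hlt⟩ := asym hp
  have hm0 : (0 : ℝ) < m := by exact_mod_cast (by omega : 0 < m)
  have hm1 : (0 : ℝ) < (m : ℝ) - 1 := by
    have : (2 : ℝ) ≤ m := by exact_mod_cast hm
    linarith
  have hMp : 0 < M ^ p := Real.rpow_pos_of_pos hM _
  have : Nonempty (Fin m) := ⟨⟨0, by omega⟩⟩
  have hbody : ∀ c : Fin (m * m) → Fin m,
      IsConvexBody (convexHull ℝ (Set.range (vert M c))) := fun c =>
    ⟨(Set.range_nonempty _).convexHull, (Set.finite_range _).isCompact_convexHull ℝ,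
      convex_convexHull ℝ _⟩
  refine ⟨m * m, _, _, hbody fun k => (finProdFinEquiv.symm k).1,
    hbody fun k => (finProdFinEquiv.symm k).2, ?_⟩
  have h1 := le_circumradius hp1 (by omega) hM hMm fun k => (finProdFinEquiv.symm k).1
  have h2 := le_circumradius hp1 (by omega) hM hMm fun k => (finProdFinEquiv.symm k).2
  set r : ℝ := ((m : ℝ) - 1) ^ 2 * |2 - s| ^ p + 2 * ((m : ℝ) - 1) * |1 - M - s| ^ p +
    |-2 * M - s| ^ p with hr
  have hA : 0 < (m : ℝ) * (M ^ p + ((m : ℝ) - 1)) := by positivity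
  set A : ℝ := (m : ℝ) * (M ^ p + ((m : ℝ) - 1)) with hAdef
  -- a positive number between
  obtain ⟨r', hr1, hr2⟩ := exists_between (show max r 0 < 2 * A from
    max_lt hlt (by positivity))
  have hr0 : 0 < r' := lt_of_le_of_lt (le_max_right _ _) hr1
  have h3 := circumradius_sum_le hp1 hr0 ((le_max_left _ _).trans hr1.le : r ≤ r')
  refine h3.trans_lt ?_
  unfold lpNorm
  apply Real.rpow_lt_rpow hr0.le _ (by positivity)
  rw [Fin.sum_univ_two]
  simp only [Matrix.cons_val_zero, Matrix.cons_val_one]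
  have h4 : ∀ R : ℝ, A ^ (1 / p) ≤ R → A ≤ |R| ^ p := by
    intro R hR
    have e1 : 0 ≤ A ^ (1 / p) := Real.rpow_nonneg hA.le _
    rw [abs_of_nonneg (e1.trans hR)]
    have e2 := Real.rpow_le_rpow e1 hR hp0.le
    rwa [← Real.rpow_mul hA.le, one_div, inv_mul_cancel₀ hp0.ne', Real.rpow_one] at e2
  have h5 := h4 _ h1
  have h6 := h4 _ h2
  linarith

end Pool.Agent.Results.MP_a85856_gt.SpikeGrids
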